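import Pool.Agent.H4ES.Defs

/-! The join of two `m`-cycles: degrees. -/

namespace Pool.Agent.H68J

open Pool.Agent.H4ES

variable {m : ℕ}

theorem one_ne (h : 3 ≤ m) : (1 : ZMod m) ≠ 0 := by
  intro h1
  have : ((1 : ℕ) : ZMod m) = 0 := by simpa using h1
  rw [ZMod.natCast_eq_zero_iff] at this
  have := Nat.le_of_dvd one_pos this
  omega

theorem two_ne (h : 3 ≤ m) : (1 + 1 : ZMod m) ≠ 0 := by
  intro h1
  have : ((2 : ℕ) : ZMod m) = 0 := by
    push_cast
    rw [← h1]
    norm_num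
  rw [ZMod.natCast_eq_zero_iff] at this
  have := Nat.le_of_dvd two_pos this
  omega

theorem pair_eq (h : 3 ≤ m) {i i' : ZMod m}
    (h1 : i' = i ∨ i' = i + 1) (h2 : i' + 1 = i ∨ i' + 1 = i + 1) : i = i' := by
  rcases h1 with h1 | h1
  · exact h1.symm
  · rcases h2 with h2 | h2
    · exfalso
      apply two_ne h
      have h3 : i + (1 + 1) = i + 0 := by
        rw [add_zero]
        rw [h1] at h2
        rw [← add_assoc]
        exact h2
      exact add_left_cancel h3
    · exact (add_right_cancel h2).symm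

/-- The join of two `m`-cycles, a triangulated 3-sphere. -/
def join (m : ℕ) (h : 3 ≤ m) : Cplx (ZMod m ⊕ ZMod m) (ZMod m × ZMod m) where
  v := fun p => ![Sum.inl p.1, Sum.inl (p.1 + 1), Sum.inr p.2, Sum.inr (p.2 + 1)]
  inj := by
    rintro ⟨i, j⟩ a b hab
    have h1 : i ≠ i + 1 := fun e => one_ne h (left_eq_add.1 e)
    have h2 : j ≠ j + 1 := fun e => one_ne h (left_eq_add.1 e)
    fin_cases a <;> fin_cases b <;> simp [h1, h2, h1.symm, h2.symm, one_ne h] at hab ⊢
  dist := by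
    rintro ⟨i, j⟩ ⟨i', j'⟩ hr
    have a0 : (Sum.inl i' : ZMod m ⊕ ZMod m) ∈ Set.range
        (![Sum.inl i, Sum.inl (i + 1), Sum.inr j, Sum.inr (j + 1)] :
          Fin 4 → ZMod m ⊕ ZMod m) := by
      rw [hr]; exact ⟨0, rfl⟩
    have a1 : (Sum.inl (i' + 1) : ZMod m ⊕ ZMod m) ∈ Set.range
        (![Sum.inl i, Sum.inl (i + 1), Sum.inr j, Sum.inr (j + 1)] :
          Fin 4 → ZMod m ⊕ ZMod m) := by
      rw [hr]; exact ⟨1, rfl⟩
    have a2 : (Sum.inr j' : ZMod m ⊕ ZMod m) ∈ Set.range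
        (![Sum.inl i, Sum.inl (i + 1), Sum.inr j, Sum.inr (j + 1)] :
          Fin 4 → ZMod m ⊕ ZMod m) := by
      rw [hr]; exact ⟨2, rfl⟩
    have a3 : (Sum.inr (j' + 1) : ZMod m ⊕ ZMod m) ∈ Set.range
        (![Sum.inl i, Sum.inl (i + 1), Sum.inr j, Sum.inr (j + 1)] :
          Fin 4 → ZMod m ⊕ ZMod m) := by
      rw [hr]; exact ⟨3, rfl⟩
    have key0 : ∀ x, (Sum.inl x : ZMod m ⊕ ZMod m) ∈ Set.range
        (![Sum.inl i, Sum.inl (i + 1), Sum.inr j, Sum.inr (j + 1)] :
          Fin 4 → ZMod m ⊕ ZMod m) → x = i ∨ x = i + 1 := by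
      rintro x ⟨b, hb⟩
      fin_cases b <;> simp at hb
      · exact Or.inl hb.symm
      · exact Or.inr hb.symm
    have key1 : ∀ x, (Sum.inr x : ZMod m ⊕ ZMod m) ∈ Set.range
        (![Sum.inl i, Sum.inl (i + 1), Sum.inr j, Sum.inr (j + 1)] :
          Fin 4 → ZMod m ⊕ ZMod m) → x = j ∨ x = j + 1 := by
      rintro x ⟨b, hb⟩
      fin_cases b <;> simp at hb
      · exact Or.inl hb.symm
      · exact Or.inr hb.symm
    rw [Prod.mk.injEq]
    exact ⟨pair_eq h (key0 _ a0) (key0 _ a1), pair_eq h (key1 _ a2) (key1 _ a3)⟩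

/-- The edges of the two cycles. -/
def red (m : ℕ) (e : Sym2 (ZMod m ⊕ ZMod m)) : Prop :=
  ¬ ∃ i j : ZMod m, e = s(Sum.inl i, Sum.inr j)

variable [NeZero m] (h : 3 ≤ m)

theorem ed0 (i j : ZMod m) : (join m h).ed (i, j) 0 = s(Sum.inl i, Sum.inl (i + 1)) := rfl
theorem ed1 (i j : ZMod m) : (join m h).ed (i, j) 1 = s(Sum.inl i, Sum.inr j) := rfl
theorem ed2 (i j : ZMod m) : (join m h).ed (i, j) 2 = s(Sum.inl i, Sum.inr (j + 1)) := rfl
theorem ed3 (i j : ZMod m) : (join m h).ed (i, j) 3 = s(Sum.inl (i + 1), Sum.inr j) := rfl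
theorem ed4 (i j : ZMod m) : (join m h).ed (i, j) 4 = s(Sum.inl (i + 1), Sum.inr (j + 1)) := rfl
theorem ed5 (i j : ZMod m) : (join m h).ed (i, j) 5 = s(Sum.inr j, Sum.inr (j + 1)) := rfl

theorem red_iff (T : ZMod m × ZMod m) (k : Fin 6) :
    red m ((join m h).ed T k) ↔ k = 0 ∨ k = 5 := by
  obtain ⟨i, j⟩ := T
  fin_cases k
  · simp only [Fin.zero_eta, ed0, red]
    simp
  · simp only [Fin.mk_one, ed1, red]
    simp
  · simp only [Fin.reduceFinMk, ed2, red]
    simp
  · simp only [Fin.reduceFinMk, ed3, red]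
    simp
  · simp only [Fin.reduceFinMk, ed4, red]
    simp
  · simp only [Fin.reduceFinMk, ed5, red]
    simp

theorem exists_ed (a b : ZMod m) (e : Sym2 (ZMod m ⊕ ZMod m)) :
    (∃ k, (join m h).ed (a, b) k = e) ↔
      s(Sum.inl a, Sum.inl (a + 1)) = e ∨ s(Sum.inl a, Sum.inr b) = e ∨
      s(Sum.inl a, Sum.inr (b + 1)) = e ∨ s(Sum.inl (a + 1), Sum.inr b) = e ∨
      s(Sum.inl (a + 1), Sum.inr (b + 1)) = e ∨ s(Sum.inr b, Sum.inr (b + 1)) = e := by
  constructor
  · rintro ⟨k, hk⟩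
    fin_cases k
    · exact Or.inl hk
    · exact Or.inr (Or.inl hk)
    · exact Or.inr (Or.inr (Or.inl hk))
    · exact Or.inr (Or.inr (Or.inr (Or.inl hk)))
    · exact Or.inr (Or.inr (Or.inr (Or.inr (Or.inl hk))))
    · exact Or.inr (Or.inr (Or.inr (Or.inr (Or.inr hk))))
  · rintro (hk | hk | hk | hk | hk | hk)
    · exact ⟨0, hk⟩
    · exact ⟨1, hk⟩
    · exact ⟨2, hk⟩
    · exact ⟨3, hk⟩
    · exact ⟨4, hk⟩
    · exact ⟨5, hk⟩

theorem deg_inl (i : ZMod m) : (join m h).deg s(Sum.inl i, Sum.inl (i + 1)) = m := by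
  classical
  have e : (Finset.univ.filter fun T : ZMod m × ZMod m =>
      ∃ k, (join m h).ed T k = s(Sum.inl i, Sum.inl (i + 1))) =
      ({i} : Finset (ZMod m)) ×ˢ (Finset.univ : Finset (ZMod m)) := by
    ext ⟨a, b⟩
    rw [Finset.mem_filter, exists_ed]
    simp only [Finset.mem_univ, true_and, Finset.mem_product, Finset.mem_singleton, and_true,
      Sym2.eq_iff, Sum.inl.injEq, reduceCtorEq, and_false, false_and, or_false]
    constructor
    · rintro (⟨h1, -⟩ | ⟨h1, h2⟩)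
      · exact h1
      · exact (pair_eq h (Or.inr h1) (Or.inl h2)).symm
    · rintro rfl
      exact Or.inl ⟨rfl, rfl⟩
  unfold Cplx.deg
  rw [e, Finset.card_product, Finset.card_singleton, Finset.card_univ, ZMod.card, one_mul]

theorem deg_inr (j : ZMod m) : (join m h).deg s(Sum.inr j, Sum.inr (j + 1)) = m := by
  classical
  have e : (Finset.univ.filter fun T : ZMod m × ZMod m =>
      ∃ k, (join m h).ed T k = s(Sum.inr j, Sum.inr (j + 1))) =
      (Finset.univ : Finset (ZMod m)) ×ˢ ({j} : Finset (ZMod m)) := by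
    ext ⟨a, b⟩
    rw [Finset.mem_filter, exists_ed]
    simp only [Finset.mem_univ, true_and, Finset.mem_product, Finset.mem_singleton,
      Sym2.eq_iff, Sum.inr.injEq, reduceCtorEq, and_false, false_and, or_false, false_or]
    constructor
    · rintro (⟨h1, -⟩ | ⟨h1, h2⟩)
      · exact h1
      · exact (pair_eq h (Or.inr h1) (Or.inl h2)).symm
    · rintro rfl
      exact Or.inl ⟨rfl, rfl⟩
  unfold Cplx.deg
  rw [e, Finset.card_product, Finset.card_singleton, Finset.card_univ, ZMod.card, mul_one]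

theorem deg_mixed (i j : ZMod m) : (join m h).deg s(Sum.inl i, Sum.inr j) = 4 := by
  classical
  have h1 : i ≠ i - 1 := fun e => one_ne h (by
    have : i + 1 = i := by
      nth_rewrite 1 [e]
      ring
    exact add_eq_left.1 this)
  have h2 : j ≠ j - 1 := fun e => one_ne h (by
    have : j + 1 = j := by
      nth_rewrite 1 [e]
      ring
    exact add_eq_left.1 this)
  have e : (Finset.univ.filter fun T : ZMod m × ZMod m =>
      ∃ k, (join m h).ed T k = s(Sum.inl i, Sum.inr j)) =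
      ({i, i - 1} : Finset (ZMod m)) ×ˢ ({j, j - 1} : Finset (ZMod m)) := by
    ext ⟨a, b⟩
    rw [Finset.mem_filter, exists_ed]
    simp only [Finset.mem_univ, true_and, Finset.mem_product, Finset.mem_singleton,
      Finset.mem_insert, Sym2.eq_iff, Sum.inr.injEq, Sum.inl.injEq, reduceCtorEq, and_false,
      false_and, or_false, false_or, eq_sub_iff_add_eq]
    tauto
  unfold Cplx.deg
  rw [e, Finset.card_product, Finset.card_pair h1, Finset.card_pair h2]

/-- The degrees of the edges. -/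
theorem deg_edges : ∀ e ∈ (join m h).edges,
    (red m e → (join m h).deg e = m) ∧ (¬ red m e → (join m h).deg e = 4) := by
  intro e he
  unfold Cplx.edges at he
  rw [Finset.mem_image] at he
  obtain ⟨⟨⟨i, j⟩, k⟩, -, rfl⟩ := he
  rw [red_iff]
  fin_cases k
  · refine ⟨fun _ => deg_inl h i, fun hn => absurd (Or.inl rfl) hn⟩
  · exact ⟨fun hk => by simp at hk, fun _ => deg_mixed h i j⟩
  · exact ⟨fun hk => by simp at hk, fun _ => deg_mixed h i (j + 1)⟩
  · exact ⟨fun hk => by simp at hk, fun _ => deg_mixed h (i + 1) j⟩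
  · exact ⟨fun hk => by simp at hk, fun _ => deg_mixed h (i + 1) (j + 1)⟩
  · exact ⟨fun _ => deg_inr h j, fun hn => absurd (Or.inr rfl) hn⟩

end Pool.Agent.H68J
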