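import Pool.Agent.H4ES.Final
import Pool.Agent.H68J.Join

/-! Two-coloured complexes have Einstein metrics. -/

namespace Pool.Agent.H68J

open Real Pool.Agent.H4ES Pool.Agent.H23ES

/-- The partner of a vertex in the red pair of opposite edges. -/
def sg : Fin 3 → Fin 4 → Fin 4 := ![![1, 0, 3, 2], ![2, 3, 0, 1], ![3, 2, 1, 0]]

/-- The two red edges. -/
def ra : Fin 3 → Fin 6 := ![0, 1, 2]
/-- The two red edges. -/
def rb : Fin 3 → Fin 6 := ![5, 4, 3]

theorem sg_iff : ∀ (r : Fin 3) (k : Fin 6), (k = ra r ∨ k = rb r) ↔ ej k = sg r (ei k) := by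
  decide

theorem sg_symm : ∀ (r : Fin 3) (b c : Fin 4), c = sg r b ↔ b = sg r c := by decide

theorem exists_edge : ∀ b c : Fin 4, b ≠ c → ∃ k, (ei k = b ∧ ej k = c) ∨ (ei k = c ∧ ej k = b) := by
  decide

/-- Squared edge lengths. -/
noncomputable def qt (s : ℝ) (r : Fin 3) (b c : Fin 4) : ℝ := if c = sg r b then s else 1

/-- The angle at a red edge. -/
noncomputable def aA (s : ℝ) : ℝ := arccos ((4 - 3 * s) / (4 - s))

/-- The angle at a blue edge. -/
noncomputable def aB (s : ℝ) : ℝ := arccos (s / (4 - s))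

theorem th_qt {s : ℝ} (h0 : 0 < s) (h2 : s < 2) (r : Fin 3) (m : Fin 6) :
    th (qt s r) m = if m = ra r ∨ m = rb r then aA s else aB s := by
  have h4 : (0 : ℝ) < 4 - s := by linarith
  have hs : √((s * (4 - s)) ^ 2) = s * (4 - s) := Real.sqrt_sq (by positivity)
  have har : ar (qt s r) (ei m) (ej m) (ek m) * ar (qt s r) (ei m) (ej m) (el m)
      = (s * (4 - s)) ^ 2 := by
    fin_cases r <;> fin_cases m <;> simp [ar, ei, ej, ek, el, qt, sg] <;> ring
  split_ifs with h
  · have : th (qt s r) m = arccos ((s * (4 - 3 * s)) / √((s * (4 - s)) ^ 2)) := by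
      apply th_of _ har
      revert h
      fin_cases r <;> fin_cases m <;>
        simp [-mul_eq_mul_left_iff, nu, ei, ej, ek, el, qt, sg, ra, rb] <;> ring
    rw [this, hs, aA, mul_div_mul_left _ _ h0.ne']
  · have : th (qt s r) m = arccos ((s * s) / √((s * (4 - s)) ^ 2)) := by
      apply th_of _ har
      revert h
      fin_cases r <;> fin_cases m <;>
        simp [-mul_eq_mul_left_iff, nu, ei, ej, ek, el, qt, sg, ra, rb] <;> ring
    rw [this, hs, aB, mul_div_mul_left _ _ h0.ne']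

theorem ar_qt_pos {s : ℝ} (h0 : 0 < s) (h2 : s < 2) (r : Fin 3) (i j k : Fin 4) (h1 : i ≠ j)
    (h3 : i ≠ k) (h4 : j ≠ k) : 0 < ar (qt s r) i j k := by
  have e : ar (qt s r) i j k = s * (4 - s) := by
    revert h1 h3 h4
    fin_cases r <;> fin_cases i <;> fin_cases j <;> fin_cases k <;>
      simp [ar, qt, sg] <;> ring
  rw [e]
  have : 0 < 4 - s := by linarith
  positivity

theorem gr_qt_pos {s : ℝ} (h0 : 0 < s) (h2 : s < 2) (r : Fin 3) : 0 < gr (qt s r) := by
  have : gr (qt s r) = 4 * s ^ 2 * (2 - s) ∨ gr (qt s r) = 2 * s ^ 2 * (2 - s) ∨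
      gr (qt s r) = 8 * s ^ 2 * (2 - s) ∨ gr (qt s r) = s ^ 2 * (2 - s) := by
    fin_cases r <;> simp [gr, qt, sg] <;> ring_nf <;> simp
  have h3 : 0 < 2 - s := by linarith
  rcases this with h | h | h | h <;> rw [h] <;> positivity

theorem pts0 {s : ℝ} (h0 : 0 < s) (h2 : s < 2) : ∃ p : Fin 4 → EuclideanSpace ℝ (Fin 3),
    AffineIndependent ℝ p ∧ ∀ b c, b ≠ c → dist (p b) (p c) ^ 2 = qt s 0 b c := by
  obtain ⟨u, hu0, hu⟩ : ∃ u : ℝ, 0 < u ∧ u ^ 2 = s / 4 :=
    ⟨Real.sqrt (s / 4), by positivity, Real.sq_sqrt (by positivity)⟩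
  obtain ⟨h, hh0, hh⟩ : ∃ h : ℝ, 0 < h ∧ h ^ 2 = 1 - s / 2 :=
    ⟨Real.sqrt (1 - s / 2), Real.sqrt_pos.2 (by linarith), Real.sq_sqrt (by linarith)⟩
  refine ⟨![!₂[u, 0, 0], !₂[-u, 0, 0], !₂[0, u, h], !₂[0, -u, h]], ?_, ?_⟩
  · rw [affineIndependent_iff_of_fintype]
    intro w hw hx
    rw [Finset.weightedVSub_eq_linear_combination _ hw] at hx
    have e0 := congrFun (congrArg WithLp.ofLp hx) 0
    have e1 := congrFun (congrArg WithLp.ofLp hx) 1
    have e2 := congrFun (congrArg WithLp.ofLp hx) 2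
    simp [Fin.sum_univ_four] at e0 e1 e2 hw
    have a1 : w 2 + w 3 = 0 := by
      have : (w 2 + w 3) * h = 0 := by linear_combination e2
      exact (mul_eq_zero.1 this).resolve_right hh0.ne'
    have a2 : w 2 - w 3 = 0 := by
      have : (w 2 - w 3) * u = 0 := by linear_combination e1
      exact (mul_eq_zero.1 this).resolve_right hu0.ne'
    have a3 : w 0 - w 1 = 0 := by
      have : (w 0 - w 1) * u = 0 := by linear_combination e0
      exact (mul_eq_zero.1 this).resolve_right hu0.ne'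
    intro i
    fin_cases i
    · show w 0 = 0
      linarith
    · show w 1 = 0
      linarith
    · show w 2 = 0
      linarith
    · show w 3 = 0
      linarith
  · intro a b hab
    rw [Pool.Agent.H30ES.dist_sq]
    fin_cases a <;> fin_cases b <;> simp [qt, sg] at hab ⊢ <;> nlinarith

/-- The permutation that brings the red pair in position. -/
def pm : Fin 3 → Fin 4 → Fin 4 := ![![0, 1, 2, 3], ![0, 2, 1, 3], ![0, 2, 3, 1]]

theorem pm_inj : ∀ r, Function.Injective (pm r) := by decide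

theorem qt_pm : ∀ (r : Fin 3) (b c : Fin 4), pm r c = sg 0 (pm r b) ↔ c = sg r b := by decide

theorem pts {s : ℝ} (h0 : 0 < s) (h2 : s < 2) (r : Fin 3) :
    ∃ p : Fin 4 → EuclideanSpace ℝ (Fin 3),
      AffineIndependent ℝ p ∧ ∀ b c, b ≠ c → dist (p b) (p c) ^ 2 = qt s r b c := by
  obtain ⟨p, hp1, hp2⟩ := pts0 h0 h2
  refine ⟨p ∘ pm r, hp1.comp_embedding ⟨pm r, pm_inj r⟩, fun b c hbc => ?_⟩
  show dist (p (pm r b)) (p (pm r c)) ^ 2 = _
  rw [hp2 _ _ fun h => hbc (pm_inj r h)]
  unfold qt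
  simp only [qt_pm]

theorem exists_s (a b : ℕ) : ∃ s : ℝ, 0 < s ∧ s < 2 ∧
    1 - a * aA s / (2 * π) = s * √s * (1 - b * aB s / (2 * π)) := by
  have hpi := Real.pi_pos
  let f : ℝ → ℝ := fun s => s * √s * (1 - b * aB s / (2 * π)) - (1 - a * aA s / (2 * π))
  have hf : ContinuousOn f (Set.Icc 0 2) := by
    have h2 : ContinuousOn (fun s : ℝ => (4 - 3 * s) / (4 - s)) (Set.Icc 0 2) := by
      apply ContinuousOn.div (by fun_prop) (by fun_prop)
      intro t ht h
      linarith [ht.2]
    have h3 : ContinuousOn (fun s : ℝ => s / (4 - s)) (Set.Icc 0 2) := by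
      apply ContinuousOn.div (by fun_prop) (by fun_prop)
      intro t ht h
      linarith [ht.2]
    have h4 : ContinuousOn aA (Set.Icc 0 2) := Real.continuous_arccos.comp_continuousOn h2
    have h5 : ContinuousOn aB (Set.Icc 0 2) := Real.continuous_arccos.comp_continuousOn h3
    have h6 : ContinuousOn (fun s : ℝ => s * √s) (Set.Icc 0 2) := by fun_prop
    exact (h6.mul (continuousOn_const.sub ((continuousOn_const.mul h5).div_const _))).sub
      (continuousOn_const.sub ((continuousOn_const.mul h4).div_const _))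
  have ha : f 0 < 0 := by
    have e1 : aA 0 = 0 := by
      unfold aA
      norm_num
    simp only [f, e1]
    norm_num
  have hb : 0 < f 2 := by
    have e1 : aA 2 = π := by
      unfold aA
      norm_num
    have e2 : aB 2 = 0 := by
      unfold aB
      norm_num
    simp only [f, e1, e2]
    have h1 : (a : ℝ) * π / (2 * π) = a / 2 := by field_simp
    rw [h1]
    have h2 : (1 : ℝ) < √2 := by
      rw [Real.lt_sqrt zero_le_one]
      norm_num
    have h3 : (0 : ℝ) ≤ a := Nat.cast_nonneg a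
    simp only [mul_zero, zero_div, sub_zero, mul_one]
    linarith
  obtain ⟨s, hs, hfs⟩ := intermediate_value_Ioo (by norm_num : (0 : ℝ) ≤ 2) hf ⟨ha, hb⟩
  refine ⟨s, hs.1, hs.2, ?_⟩
  simp only [f] at hfs
  linarith

variable {V ι : Type} [DecidableEq V] [Fintype ι] [DecidableEq ι]

open Classical in
/-- The metric: `s` on red edges, `1` on the others. -/
noncomputable def zr (red : Sym2 V → Prop) (s : ℝ) (e : Sym2 V) : ℝ := if red e then s else 1

theorem sq_zr (K : Cplx V ι) (red : Sym2 V → Prop) (s : ℝ) (T : ι) (r : Fin 3)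
    (hr : ∀ k, red (K.ed T k) ↔ k = ra r ∨ k = rb r) (b c : Fin 4) (hbc : b ≠ c) :
    K.sq (zr red s) T b c = qt s r b c := by
  have key : red s(K.v T b, K.v T c) ↔ c = sg r b := by
    obtain ⟨k, ⟨rfl, rfl⟩ | ⟨rfl, rfl⟩⟩ := exists_edge b c hbc
    · exact (hr k).trans (sg_iff r k)
    · rw [Sym2.eq_swap, sg_symm]
      exact (hr k).trans (sg_iff r k)
  unfold Cplx.sq zr qt
  by_cases h : c = sg r b
  · rw [if_pos (key.2 h), if_pos h]
  · rw [if_neg (fun h' => h (key.1 h')), if_neg h]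

/-- Every two-coloured complex has an Einstein metric. -/
theorem two (K : Cplx V ι) (red : Sym2 V → Prop) (a b : ℕ)
    (hT : ∀ T, ∃ r : Fin 3, ∀ k, red (K.ed T k) ↔ k = ra r ∨ k = rb r)
    (hd : ∀ e ∈ K.edges, (red e → K.deg e = a) ∧ (¬ red e → K.deg e = b)) :
    ∃ s : ℝ, 0 < s ∧ s < 2 ∧ K.IsEinstein (zr red s) := by
  classical
  obtain ⟨s, h0, h2, hs⟩ := exists_s a b
  refine ⟨s, h0, h2, ?_, 1 / 2 * (1 - b * aB s / (2 * π)), ?_⟩
  · intro T
    obtain ⟨r, hr⟩ := hT T
    obtain ⟨p, hp1, hp2⟩ := pts h0 h2 r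
    exact ⟨p, hp1, fun b c hbc => by rw [hp2 b c hbc, sq_zr K red s T r hr b c hbc]⟩
  · intro e he
    have hz : ∀ e, 0 < zr red s e := by
      intro e
      unfold zr
      split_ifs
      · exact h0
      · exact one_pos
    have h := K.hasDeriv_total (zr red s) e he (hz e) fun T => by
      obtain ⟨r, hr⟩ := hT T
      exact K.tet_deriv (zr red s) e T
        (fun b c _ => hz _)
        (fun i j k h1 h3 h4 => by
          rw [ar_congr (fun b c hbc => sq_zr K red s T r hr b c hbc) h1 h3 h4]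
          exact ar_qt_pos h0 h2 r i j k h1 h3 h4)
        (by
          rw [gr_congr (fun b c hbc => sq_zr K red s T r hr b c hbc)]
          exact gr_qt_pos h0 h2 r)
    refine h.congr_deriv ?_
    have hth : ∀ T m, th (K.sq (zr red s) T) m = if red (K.ed T m) then aA s else aB s := by
      intro T m
      obtain ⟨r, hr⟩ := hT T
      rw [th_congr (fun b c hbc => sq_zr K red s T r hr b c hbc) m, th_qt h0 h2 r m]
      by_cases h : red (K.ed T m)
      · rw [if_pos h, if_pos ((hr m).1 h)]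
      · rw [if_neg h, if_neg fun h' => h ((hr m).2 h')]
    have hcurv : K.curv (zr red s) e
        = 1 - K.deg e * (if red e then aA s else aB s) / (2 * π) := by
      unfold Cplx.curv
      congr 1
      rw [← K.sum_deg e, mul_div_assoc, Finset.sum_mul]
      refine Finset.sum_congr rfl fun T _ => ?_
      rw [Finset.sum_mul]
      refine Finset.sum_congr rfl fun m _ => ?_
      by_cases hm : K.ed T m = e
      · rw [if_pos hm, if_pos hm, one_mul, hth T m, hm]
      · rw [if_neg hm, if_neg hm, zero_mul]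
    rw [hcurv]
    by_cases hr : red e
    · rw [(hd e he).1 hr, if_pos hr, hs]
      unfold zr
      rw [if_pos hr]
      have : √s ≠ 0 := (Real.sqrt_pos.2 h0).ne'
      field_simp
    · rw [(hd e he).2 hr, if_neg hr]
      unfold zr
      rw [if_neg hr, Real.sqrt_one]
      ring

/-- The joins of two `m`-cycles have Einstein metrics. -/
theorem join_einstein (m : ℕ) [NeZero m] (h : 3 ≤ m) :
    ∃ s : ℝ, 0 < s ∧ s < 2 ∧ (join m h).IsEinstein (zr (red m) s) :=
  two (join m h) (red m) m 4 (fun T => ⟨0, red_iff h T⟩) (deg_edges h)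

end Pool.Agent.H68J
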